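import Pool.Agent.FEI.Final

set_option autoImplicit false

namespace Pool.Agent.Results.MP_de5285_an.DoublingFEI

open Finset Pool.FEI

/-- The point that agrees with `x` on `R` and with `z` outside `R`. -/
def glue {n : ℕ} (R : Finset (Fin n)) (x z : Fin n → Bool) : Fin n → Bool :=
  fun i => if i ∈ R then x i else z i

/-- Normalised Hamming distance of the two subfunctions of `f` on the coordinates `R` obtained by
fixing the coordinates outside `R` as in `z` and as in `z'`. -/
noncomputable def subDist {n : ℕ} (f : (Fin n → Bool) → Bool) (R : Finset (Fin n))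
    (z z' : Fin n → Bool) : ℝ :=
  ((univ.filter fun x : Fin n → Bool => f (glue R x z) ≠ f (glue R x z')).card : ℝ) / 2 ^ n

/-- For every set `R` of coordinates the space of subfunctions of `f` on `R` is `L`-doubling: every
set of subfunctions of diameter at most `r` is a union of `L` sets of diameter at most `r / 2`. -/
def Doubling {n : ℕ} (f : (Fin n → Bool) → Bool) (L : ℕ) : Prop :=
  ∀ (R : Finset (Fin n)) (r : ℝ) (Z : Set (Fin n → Bool)),
    (∀ z ∈ Z, ∀ z' ∈ Z, subDist f R z z' ≤ r) →
      ∃ color : (Fin n → Bool) → Fin L, ∀ z ∈ Z, ∀ z' ∈ Z, color z = color z' →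
        subDist f R z z' ≤ r / 2

theorem ds_eq {n : ℕ} (f : (Fin n → Bool) → Bool) (R : Finset (Fin n)) (z z' : Fin n → Bool) :
    ds (fun x => if f x then (-1 : ℝ) else 1) R z z' = 2 * subDist f R z z' := by
  unfold ds E subDist
  rw [Fintype.card_fin, Finset.card_filter]
  push_cast
  rw [mul_div_assoc', Finset.mul_sum]
  congr 1
  apply Finset.sum_congr rfl
  intro x _
  have e : ∀ w, mrg R x w = glue R x w := fun w => rfl
  rw [e, e]
  cases h1 : f (glue R x z) <;> cases h2 : f (glue R x z') <;> simp <;> norm_num

theorem Dbl_of_Doubling {n : ℕ} (f : (Fin n → Bool) → Bool) (L : ℕ) (h : Doubling f L) :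
    Dbl (fun x => if f x then (-1 : ℝ) else 1) L := by
  intro R r Z hZ
  obtain ⟨κ, hκ⟩ := h R (r / 2) (Z : Set (Fin n → Bool)) (by
    intro z hz z' hz'
    have := hZ z (by simpa using hz) z' (by simpa using hz')
    rw [ds_eq] at this
    linarith)
  refine ⟨κ, fun z hz z' hz' hk => ?_⟩
  have := hκ z (by simpa using hz) z' (by simpa using hz') hk
  rw [ds_eq]
  linarith

/-- The Fourier entropy-influence inequality for Boolean functions whose spaces of subfunctions are
`L`-doubling, with a constant of order `1 + log L`, and with the total influence minus the variance on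
the right. -/
theorem result :
    ∃ c : ℝ, 0 < c ∧
      ∀ (n L : ℕ) (f : (Fin n → Bool) → Bool) (fhat : Finset (Fin n) → ℝ),
        (∀ S : Finset (Fin n),
          fhat S = (∑ x : Fin n → Bool,
              (if f x then (-1 : ℝ) else 1) *
                ∏ k ∈ S, (if x k then (-1 : ℝ) else 1)) / (2 : ℝ) ^ n) →
        Doubling f L →
        ∑ S : Finset (Fin n), fhat S ^ 2 * Real.logb 2 (1 / fhat S ^ 2)
          ≤ c * (1 + Real.log L) *
            (∑ S : Finset (Fin n), (S.card : ℝ) * fhat S ^ 2 - (1 - fhat ∅ ^ 2)) := by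
  have hlog2 : 0 < Real.log 2 := Real.log_pos (by norm_num)
  refine ⟨8 * 400000000 / Real.log 2, by positivity, ?_⟩
  intro n L f fhat hfhat hDf
  set g : (Fin n → Bool) → ℝ := fun x => if f x then (-1 : ℝ) else 1 with hg
  have hPM : PM g := PM_of_bool f
  have hD : Dbl g L := Dbl_of_Doubling f L hDf
  have hL : 1 ≤ L := Dbl_pos g L hD
  have hLr : (1 : ℝ) ≤ L := by exact_mod_cast hL
  have hlogL : 0 ≤ Real.log L := Real.log_nonneg hLr
  have hm := main g hPM L hD
  have hb := bridge n f fhat hfhat (8 * (400000000 * (1 + Real.log L)))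
    (fun S => (S.card : ℝ) - Real.sqrt S.card) hm
  have hc : ∀ S, coef g S = fhat S := by
    intro S
    rw [hfhat S]
    unfold coef E chi
    rw [Fintype.card_fin]
  have hp := potential_le g hPM
  simp only [hc] at hp
  refine hb.trans ?_
  have e : 8 * 400000000 / Real.log 2 * (1 + Real.log L) = 8 * (400000000 * (1 + Real.log L)) / Real.log 2 := by
    ring
  rw [e]
  exact mul_le_mul_of_nonneg_left hp (by positivity)

end Pool.Agent.Results.MP_de5285_an.DoublingFEI
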