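import Pool.Agent.FEI.Final

set_option autoImplicit false

namespace Pool.Agent.Results.MP_de5285_an.HalfspaceFEI

open Finset Pool.FEI

/-- The Fourier entropy-influence inequality holds, with one absolute constant, for every product of a
halfspace and a parity (in particular for every halfspace), even with the total influence minus the
variance on the right. -/
theorem result :
    ∃ c : ℝ, 0 < c ∧
      ∀ (n : ℕ) (f : (Fin n → Bool) → Bool) (fhat : Finset (Fin n) → ℝ),
        (∀ S : Finset (Fin n),
          fhat S = (∑ x : Fin n → Bool,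
              (if f x then (-1 : ℝ) else 1) *
                ∏ k ∈ S, (if x k then (-1 : ℝ) else 1)) / (2 : ℝ) ^ n) →
        (∃ (a : Fin n → ℝ) (θ : ℝ) (T : Finset (Fin n)), ∀ x : Fin n → Bool,
          (if f x then (-1 : ℝ) else 1) =
            (∏ k ∈ T, (if x k then (-1 : ℝ) else 1)) *
              (if ∑ k, a k * (if x k then (-1 : ℝ) else 1) < θ then (-1 : ℝ) else 1)) →
        ∑ S : Finset (Fin n), fhat S ^ 2 * Real.logb 2 (1 / fhat S ^ 2)
          ≤ c * (∑ S : Finset (Fin n), (S.card : ℝ) * fhat S ^ 2 - (1 - fhat ∅ ^ 2)) := by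
  have hlog4 : 0 ≤ Real.log ((2 * 2 : ℕ) : ℝ) := Real.log_nonneg (by norm_num)
  have hlog2 : 0 < Real.log 2 := Real.log_pos (by norm_num)
  refine ⟨8 * (400000000 * (1 + Real.log ((2 * 2 : ℕ) : ℝ))) / Real.log 2, by positivity, ?_⟩
  rintro n f fhat hfhat ⟨a, θ, T, hf⟩
  set g : (Fin n → Bool) → ℝ := fun x => if f x then (-1 : ℝ) else 1 with hg
  have hPM : PM g := PM_of_bool f
  set h : (Fin n → Bool) → ℝ := fun x =>
    if ∑ k, a k * (if x k then (-1 : ℝ) else 1) < θ then (-1 : ℝ) else 1 with hh
  have hD : Dbl g (2 * 2) := by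
    have h1 : g = fun x => chi T x * h x := by
      ext x
      exact hf x
    rw [h1]
    exact Dbl_chi h 2 (Dbl_of_nested h (nested_of_threshold a θ h fun x => rfl)) T
  have hm := main g hPM (2 * 2) hD
  have hb := bridge n f fhat hfhat (8 * (400000000 * (1 + Real.log ((2 * 2 : ℕ) : ℝ))))
    (fun S => (S.card : ℝ) - Real.sqrt S.card) hm
  refine hb.trans ?_
  apply mul_le_mul_of_nonneg_left _ (by positivity)
  have hc : ∀ S, coef g S = fhat S := by
    intro S
    rw [hfhat S]
    unfold coef E chi
    rw [Fintype.card_fin]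
  have hp := potential_le g hPM
  simp only [hc] at hp
  exact hp

end Pool.Agent.Results.MP_de5285_an.HalfspaceFEI
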