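import Pool.Agent.FEI.TreeRows

set_option autoImplicit false

namespace Pool.Agent.Results.MP_de5285_an.ThresholdFormulaFEI

open Finset Pool.FEI

/-- The sign of a bit: `true` stands for `-1`. -/
noncomputable def sg (b : Bool) : ℝ := if b then (-1 : ℝ) else 1

/-- `G` is a Boolean function of `k` halfspaces and `k` parities of its `m` arguments. -/
def HalfspacesAndParities {m : ℕ} (k : ℕ) (G : (Fin m → Bool) → Bool) : Prop :=
  ∃ (a : Fin k → Fin m → ℝ) (θ : Fin k → ℝ) (T : Fin k → Finset (Fin m))
    (Φ : (Fin k → Bool) → (Fin k → Bool) → Bool),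
    ∀ z : Fin m → Bool,
      G z = Φ (fun j => decide (∑ i, a j i * sg (z i) < θ j))
        (fun j => decide (∏ i ∈ T j, sg (z i) < 0))

/-- Read-once formulas, of any depth and with gates of any fan-in, in which every gate is a Boolean
function of `k` halfspaces and `k` parities of its inputs: `ReadOnce k A f` says that `f` is computed by
such a formula whose leaves are the variables in `A`, one leaf for each. -/
inductive ReadOnce {n : ℕ} (k : ℕ) : Finset (Fin n) → ((Fin n → Bool) → Bool) → Prop
  | var (i : Fin n) : ReadOnce k {i} (fun x => x i)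
  | gate (m : ℕ) (A : Fin m → Finset (Fin n)) (f : Fin m → (Fin n → Bool) → Bool)
      (G : (Fin m → Bool) → Bool) (hG : HalfspacesAndParities k G)
      (hA : ∀ i j, i ≠ j → Disjoint (A i) (A j)) (hf : ∀ j, ReadOnce k (A j) (f j)) :
      ReadOnce k (univ.biUnion A) (fun x => G (fun j => f j x))

theorem dep_readOnce {n k : ℕ} {A : Finset (Fin n)} {f : (Fin n → Bool) → Bool} (h : ReadOnce k A f) :
    ∀ u u' : Fin n → Bool, (∀ i ∈ A, u i = u' i) → f u = f u' := by
  induction h with
  | var i =>
    intro u u' huu
    exact huu i (Finset.mem_singleton_self i)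
  | gate m A f G hG hA hf ih =>
    intro u u' huu
    show G (fun j => f j u) = G (fun j => f j u')
    congr 1
    funext j
    exact ih j u u' fun i hi => huu i (Finset.mem_biUnion.mpr ⟨j, Finset.mem_univ j, hi⟩)

/-- normal form of a cut: the outside is seen through one bit which is a function of `K` comparisons -/
def NCut {n : ℕ} (K : ℕ) (f : (Fin n → Bool) → Bool) (A : Finset (Fin n)) : Prop :=
  ∃ (X Y : Fin K → (Fin n → Bool) → ℝ) (Φ : (Fin K → Bool) → Bool) (u v : (Fin n → Bool) → Bool),
    ∀ x y, f (mrg A x y) = if Φ (fun i => decide (Y i y ≤ X i x)) then u y else v y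

theorem NCut_outer {n K : ℕ} (f h : (Fin n → Bool) → Bool) (A : Finset (Fin n)) (H : Bool → (Fin n → Bool) → Bool)
    (hH : ∀ x y, h (mrg A x y) = H (f (mrg A x y)) y) (hN : NCut K f A) : NCut K h A := by
  obtain ⟨X, Y, Φ, u, v, hf⟩ := hN
  refine ⟨X, Y, Φ, fun y => H (u y) y, fun y => H (v y) y, ?_⟩
  intro x y
  rw [hH, hf]
  split_ifs <;> rfl

theorem GTcut_of_NCut {n K : ℕ} (f : (Fin n → Bool) → Bool) (A : Finset (Fin n)) (hN : NCut K f A) :
    GTcut (K + 2) (fun x => if f x then (-1 : ℝ) else 1) A := by
  obtain ⟨X, Y, Φ, u, v, hf⟩ := hN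
  have h := GTcut_of_fintype (Fin K ⊕ Bool) (fun x => if f x then (-1 : ℝ) else 1) A
    (fun j x => match j with
      | Sum.inl j => X j x
      | Sum.inr _ => 0)
    (fun j y => match j with
      | Sum.inl j => Y j y
      | Sum.inr b => if (if b then u y else v y) then 0 else 1)
    (fun s => if (if Φ (fun j => s (Sum.inl j)) then s (Sum.inr true) else s (Sum.inr false)) then (-1 : ℝ) else 1)
    (by
      intro x y
      show (if f (mrg A x y) = true then (-1 : ℝ) else 1) = _
      rw [hf]
      by_cases h1 : Φ (fun i => decide (Y i y ≤ X i x)) = true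
      · cases u y <;> simp [h1]
      · cases v y <;> simp [h1])
  simpa [Fintype.card_sum] using h

/-- cuts of a gate -/
theorem gate_cut {m k : ℕ} (G : (Fin m → Bool) → Bool) (hG : HalfspacesAndParities k G) (P : Finset (Fin m)) :
    ∃ (X Y : Fin (k + (k + k) + 1) → (Fin m → Bool) → ℝ) (Φ : (Fin (k + (k + k) + 1) → Bool) → Bool),
      ∀ x y, G (mrg P x y) = Φ (fun i => decide (Y i y ≤ X i x)) := by
  obtain ⟨a, θ, T, Φ, hG⟩ := hG
  obtain ⟨X, Y, Ψ, h⟩ := GTcut_succ _ _ _ (GTcut_of_halfspaces k k (fun z => if G z then (-1 : ℝ) else 1) a θ T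
    (fun s t => if Φ s t then (-1 : ℝ) else 1) (fun z => by
      show (if G z then (-1 : ℝ) else 1) = _
      rw [hG z]
      rfl) P)
  refine ⟨X, Y, fun s => decide (Ψ s = -1), ?_⟩
  intro x y
  have h1 : (if G (mrg P x y) = true then (-1 : ℝ) else 1) = Ψ (fun i => decide (Y i y ≤ X i x)) := h x y
  show G (mrg P x y) = decide (Ψ (fun i => decide (Y i y ≤ X i x)) = -1)
  rw [← h1]
  cases G (mrg P x y)
  · simp; norm_num
  · simp

theorem dec_readOnce {n k : ℕ} {A : Finset (Fin n)} {f : (Fin n → Bool) → Bool} (h : ReadOnce k A f) :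
    Dec (NCut (k + (k + k) + 1) f) A := by
  induction h with
  | var i =>
    refine Dec.small {i} (by simp) ⟨fun _ x => if x i then 1 else 0, fun _ _ => 1, fun s => s 0, fun _ => true,
      fun _ => false, ?_⟩
    intro x y
    have h1 : mrg {i} x y i = x i := by unfold mrg; simp
    show mrg {i} x y i = _
    rw [h1]
    cases hx : x i <;> simp [hx]
  | gate m A f G hG hA hf ih =>
    set F : (Fin n → Bool) → Bool := fun x => G (fun j => f j x) with hF
    set Aj : ℕ → Finset (Fin n) := fun j => (univ.filter (fun l : Fin m => (l : ℕ) < j)).biUnion A with hAj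
    have hmem : ∀ j i, i ∈ Aj j ↔ ∃ l : Fin m, (l : ℕ) < j ∧ i ∈ A l := by
      intro j i
      simp only [hAj, Finset.mem_biUnion, Finset.mem_filter, Finset.mem_univ, true_and]
    have hprefix : ∀ j, NCut (k + (k + k) + 1) F (Aj j) := by
      intro j
      obtain ⟨X, Y, Φ, hΦ⟩ := gate_cut G hG (univ.filter (fun l : Fin m => (l : ℕ) < j))
      refine ⟨fun i x => X i (fun l => f l x), fun i y => Y i (fun l => f l y), Φ, fun _ => true, fun _ => false, ?_⟩
      intro x y
      have h1 : (fun l => f l (mrg (Aj j) x y))
          = mrg (univ.filter (fun l : Fin m => (l : ℕ) < j)) (fun l => f l x) (fun l => f l y) := by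
        funext l
        by_cases hl : (l : ℕ) < j
        · have e : f l (mrg (Aj j) x y) = f l x := dep_readOnce (hf l) _ _ fun i hi => by
            have : i ∈ Aj j := (hmem j i).mpr ⟨l, hl, hi⟩
            unfold mrg; simp [this]
          rw [e]
          unfold mrg
          simp [hl]
        · have e : f l (mrg (Aj j) x y) = f l y := dep_readOnce (hf l) _ _ fun i hi => by
            have : i ∉ Aj j := by
              rw [hmem]
              rintro ⟨l', hl', hi'⟩
              have hne : l' ≠ l := fun h => hl (h ▸ hl')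
              exact Finset.disjoint_left.mp (hA l' l hne) hi' hi
            unfold mrg; simp [this]
          rw [e]
          unfold mrg
          simp [hl]
      show G (fun l => f l (mrg (Aj j) x y)) = _
      rw [h1, hΦ]
      simp
    have hsub : ∀ l : Fin m, Dec (NCut (k + (k + k) + 1) F) (A l) := by
      intro l
      refine (ih l).mono ?_
      intro D hD hN
      refine NCut_outer (f l) F D (fun b y => G (fun l' => if l' = l then b else f l' y)) ?_ hN
      intro x y
      show G (fun l' => f l' (mrg D x y)) = G (fun l' => if l' = l then f l (mrg D x y) else f l' y)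
      congr 1
      funext l'
      by_cases hl : l' = l
      · rw [if_pos hl, hl]
      · rw [if_neg hl]
        apply dep_readOnce (hf l')
        intro i hi
        have : i ∉ D := fun h => Finset.disjoint_left.mp (hA l' l hl) hi (hD h)
        unfold mrg; simp [this]
    have hall : ∀ j, j ≤ m → Dec (NCut (k + (k + k) + 1) F) (Aj j) := by
      intro j
      induction j with
      | zero =>
        intro _
        have h0 : Aj 0 = ∅ := by
          ext i
          rw [hmem]
          simp
        have h1 := hprefix 0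
        rw [h0] at h1 ⊢
        exact Dec.small ∅ (by simp) h1
      | succ j ihj =>
        intro hj
        have h0 : Aj (j + 1) = Aj j ∪ A ⟨j, hj⟩ := by
          ext i
          rw [Finset.mem_union, hmem, hmem]
          constructor
          · rintro ⟨l, hl, hi⟩
            rcases Nat.lt_succ_iff_lt_or_eq.mp hl with h | h
            · exact Or.inl ⟨l, h, hi⟩
            · right
              have : l = ⟨j, hj⟩ := Fin.ext h
              rw [← this]; exact hi
          · rintro (⟨l, hl, hi⟩ | hi)
            · exact ⟨l, by omega, hi⟩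
            · exact ⟨⟨j, hj⟩, Nat.lt_succ_self j, hi⟩
        have h1 := hprefix (j + 1)
        rw [h0] at h1 ⊢
        refine Dec.split (Aj j) (A ⟨j, hj⟩) ?_ h1 (ihj (by omega)) (hsub _)
        rw [Finset.disjoint_left]
        intro i hi hi'
        obtain ⟨l, hl, hil⟩ := (hmem j i).mp hi
        have hne : l ≠ ⟨j, hj⟩ := fun h => by rw [h] at hl; exact lt_irrefl _ hl
        exact Finset.disjoint_left.mp (hA l _ hne) hil hi'
    have h2 := hall m le_rfl
    have h3 : Aj m = univ.biUnion A := by
      ext i
      rw [hmem, Finset.mem_biUnion]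
      constructor
      · rintro ⟨l, _, hi⟩
        exact ⟨l, Finset.mem_univ _, hi⟩
      · rintro ⟨l, _, hi⟩
        exact ⟨l, l.2, hi⟩
    rw [h3] at h2
    exact h2

/-- The Fourier entropy-influence inequality, with a constant of the form `c * 4096 ^ k`, for all
read-once formulas (of any depth and fan-in) whose gates are Boolean functions of `k` halfspaces and `k`
parities of their inputs. -/
theorem result :
    ∃ c : ℝ, 0 < c ∧
      ∀ (k n : ℕ) (A : Finset (Fin n)) (f : (Fin n → Bool) → Bool) (fhat : Finset (Fin n) → ℝ),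
        (∀ S : Finset (Fin n),
          fhat S = (∑ x : Fin n → Bool,
              (if f x then (-1 : ℝ) else 1) *
                ∏ i ∈ S, (if x i then (-1 : ℝ) else 1)) / (2 : ℝ) ^ n) →
        ReadOnce k A f →
        ∑ S : Finset (Fin n), fhat S ^ 2 * Real.logb 2 (1 / fhat S ^ 2)
          ≤ c * 4096 ^ k * ∑ S : Finset (Fin n), (S.card : ℝ) * fhat S ^ 2 := by
  have hlog2 : 0 < Real.log 2 := Real.log_pos (by norm_num)
  refine ⟨8260000000 * 4096 / Real.log 2, by positivity, ?_⟩
  intro k n A f fhat hfhat hf
  set g : (Fin n → Bool) → ℝ := fun x => if f x then (-1 : ℝ) else 1 with hg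
  have hPM : PM g := PM_of_bool f
  have hDep : Dep g A := by
    intro u u' huu
    simp only [hg]
    rw [dep_readOnce hf u u' huu]
  have hDec : Dec (GTcut (k + (k + k) + 1 + 2) g) A :=
    (dec_readOnce hf).mono fun D _ hD => GTcut_of_NCut f D hD
  have hm := mainGTtree _ g hPM A hDep hDec
  have h2 : (16 : ℝ) ^ (k + (k + k) + 1 + 2) = 4096 * 4096 ^ k := by
    rw [show k + (k + k) + 1 + 2 = 3 + 3 * k by ring, pow_add, pow_mul]; norm_num
  rw [h2] at hm
  have hb := bridge n f fhat hfhat (8260000000 * (4096 * 4096 ^ k)) (fun S => (S.card : ℝ)) hm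
  refine hb.trans (le_of_eq ?_)
  ring

end Pool.Agent.Results.MP_de5285_an.ThresholdFormulaFEI
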