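import Pool.Agent.FEI.TreeRows

set_option autoImplicit false

namespace Pool.Agent.Results.MP_de5285_an.TreeAutomatonFEI

open Finset Pool.FEI

/-- `TreeState w A s`: the map `s` from the cube to `w` states is computed bottom-up along a binary
tree whose leaves are the variables in `A`, one leaf for each. A leaf sends the bit of its variable to
a state; an inner node combines the states of its two children by an arbitrary map. The maps may be
different at different nodes. -/
inductive TreeState {n : ℕ} (w : ℕ) : Finset (Fin n) → ((Fin n → Bool) → Fin w) → Prop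
  | leaf (i : Fin n) (s : Bool → Fin w) : TreeState w {i} (fun x => s (x i))
  | node (A B : Finset (Fin n)) (hAB : Disjoint A B) (p q : (Fin n → Bool) → Fin w)
      (δ : Fin w → Fin w → Fin w) (hp : TreeState w A p) (hq : TreeState w B q) :
      TreeState w (A ∪ B) (fun x => δ (p x) (q x))

theorem state_dep {n w : ℕ} {A : Finset (Fin n)} {s : (Fin n → Bool) → Fin w} (h : TreeState w A s) :
    ∀ u u' : Fin n → Bool, (∀ i ∈ A, u i = u' i) → s u = s u' := by
  induction h with
  | leaf i s =>
    intro u u' huu
    show s (u i) = s (u' i)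
    rw [huu i (Finset.mem_singleton_self i)]
  | node A B hAB p q δ hp hq ihp ihq =>
    intro u u' huu
    show δ (p u) (q u) = δ (p u') (q u')
    rw [ihp u u' fun i hi => huu i (Finset.mem_union_left _ hi), ihq u u' fun i hi => huu i (Finset.mem_union_right _ hi)]

theorem dec_state {n w : ℕ} {A : Finset (Fin n)} {s : (Fin n → Bool) → Fin w} (h : TreeState w A s) :
    ∀ (f : (Fin n → Bool) → ℝ) (Γ : Fin w → (Fin n → Bool) → ℝ), (∀ x y, f (mrg A x y) = Γ (s x) y) →
      Dec (RowsLE w f) A := by
  induction h with
  | leaf i s =>
    intro f Γ hf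
    exact Dec.small {i} (by simp) ⟨fun x => s (x i), fun x x' hx y => by rw [hf, hf, hx]⟩
  | node A B hAB p q δ hp hq ihp ihq =>
    intro f Γ hf
    refine Dec.split A B hAB ⟨fun x => δ (p x) (q x), fun x x' hx y => by rw [hf, hf, hx]⟩ ?_ ?_
    · apply ihp f (fun c y => Γ (δ c (q y)) y)
      intro x y
      have h1 : mrg A x y = mrg (A ∪ B) (mrg A x y) y := by
        ext i
        unfold mrg
        by_cases hi : i ∈ A
        · simp [hi]
        · simp [hi]
      rw [h1, hf]
      have h2 : p (mrg A x y) = p x := state_dep hp _ _ fun i hi => by unfold mrg; simp [hi]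
      have h3 : q (mrg A x y) = q y := state_dep hq _ _ fun i hi => by
        have : i ∉ A := fun h => Finset.disjoint_left.mp hAB h hi
        unfold mrg; simp [this]
      show Γ (δ (p (mrg A x y)) (q (mrg A x y))) y = _
      rw [h2, h3]
    · apply ihq f (fun c y => Γ (δ (p y) c) y)
      intro x y
      have h1 : mrg B x y = mrg (A ∪ B) (mrg B x y) y := by
        ext i
        unfold mrg
        by_cases hi : i ∈ B
        · simp [hi]
        · simp [hi]
      rw [h1, hf]
      have h2 : q (mrg B x y) = q x := state_dep hq _ _ fun i hi => by unfold mrg; simp [hi]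
      have h3 : p (mrg B x y) = p y := state_dep hp _ _ fun i hi => by
        have : i ∉ B := fun h => Finset.disjoint_left.mp hAB hi h
        unfold mrg; simp [this]
      show Γ (δ (p (mrg B x y)) (q (mrg B x y))) y = _
      rw [h2, h3]

/-- The Fourier entropy-influence inequality for functions computed by bottom-up tree automata with `w`
states, with constant `c (1 + ln w)`. -/
theorem result :
    ∃ c : ℝ, 0 < c ∧
      ∀ (n w : ℕ) (A : Finset (Fin n)) (s : (Fin n → Bool) → Fin w) (accept : Fin w → Bool)
        (f : (Fin n → Bool) → Bool) (fhat : Finset (Fin n) → ℝ),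
        (∀ S : Finset (Fin n),
          fhat S = (∑ x : Fin n → Bool,
              (if f x then (-1 : ℝ) else 1) *
                ∏ k ∈ S, (if x k then (-1 : ℝ) else 1)) / (2 : ℝ) ^ n) →
        TreeState w A s →
        (∀ x : Fin n → Bool, f x = accept (s x)) →
        ∑ S : Finset (Fin n), fhat S ^ 2 * Real.logb 2 (1 / fhat S ^ 2)
          ≤ c * (1 + Real.log w) * ∑ S : Finset (Fin n), (S.card : ℝ) * fhat S ^ 2 := by
  have hlog2 : 0 < Real.log 2 := Real.log_pos (by norm_num)
  refine ⟨8000000 / Real.log 2, by positivity, ?_⟩
  intro n w A s accept f fhat hfhat hs hf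
  have hw : (0 : ℝ) ≤ Real.log w := Real.log_natCast_nonneg w
  set g : (Fin n → Bool) → ℝ := fun x => if f x then (-1 : ℝ) else 1 with hg
  have hPM : PM g := PM_of_bool f
  have hfA : ∀ x y, g (mrg A x y) = if accept (s x) then (-1 : ℝ) else 1 := by
    intro x y
    simp only [hg]
    rw [hf, state_dep hs (mrg A x y) x fun i hi => by unfold mrg; simp [hi]]
  have hDep : Dep g A := by
    intro u u' huu
    simp only [hg]
    rw [hf, hf, state_dep hs u u' huu]
  have hm := mainRows w g hPM A hDep (dec_state hs g (fun c _ => if accept c then (-1 : ℝ) else 1) hfA)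
  have hb := bridge n f fhat hfhat (4000000 * (2 * Real.log w + 1)) (fun S => (S.card : ℝ)) hm
  refine hb.trans ?_
  apply mul_le_mul_of_nonneg_right
  · rw [div_mul_eq_mul_div]
    apply div_le_div_of_nonneg_right _ hlog2.le
    linarith
  · exact Finset.sum_nonneg fun S _ => by positivity

end Pool.Agent.Results.MP_de5285_an.TreeAutomatonFEI
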